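import Mathlib
import Pool.Agent.L0h44.LC.Stm2
import Pool.Agent.Helper965_Rud.ASHomot

set_option autoImplicit false

/-!
# Project LC (MP_07bfe7_gt), module ACY: contractible complexes are acyclic (helper87)
-/

namespace Pool.Agent.L0h87.LC

open Finset Pool.Agent.H933R3 Topology Pool.Agent.L0h44.LC Pool.Agent.Helper965_Rud

theorem isCompact_realization {n : ℕ} (K : Finset (Finset (Fin n))) : IsCompact (realization K) := by
  have h1 : realization K = ⋃ σ ∈ K, {x : Fin n → ℝ | (∀ i, 0 ≤ x i) ∧ ∑ i, x i = 1 ∧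
      ∀ i, i ∉ σ → x i = 0} := by
    ext x
    simp only [realization, Set.mem_setOf_eq, Set.mem_iUnion, exists_prop]
    constructor
    · rintro ⟨h0, h1, σ, hσ, h2⟩
      exact ⟨σ, hσ, h0, h1, h2⟩
    · rintro ⟨σ, hσ, h0, h1, h2⟩
      exact ⟨h0, h1, σ, hσ, h2⟩
  rw [h1]
  refine K.isCompact_biUnion fun σ _ => ?_
  refine Metric.isCompact_of_isClosed_isBounded ?_ ?_
  · have e : {x : Fin n → ℝ | (∀ i, 0 ≤ x i) ∧ ∑ i, x i = 1 ∧ ∀ i, i ∉ σ → x i = 0} =
        (⋂ i, {x : Fin n → ℝ | 0 ≤ x i}) ∩ ({x : Fin n → ℝ | ∑ i, x i = 1} ∩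
          ⋂ i, ⋂ (_ : i ∉ σ), {x : Fin n → ℝ | x i = 0}) := by
      ext x
      simp
    rw [e]
    refine (isClosed_iInter fun i => isClosed_le continuous_const (continuous_apply i)).inter
      ((isClosed_eq (continuous_finset_sum _ fun i _ => continuous_apply i) continuous_const).inter
        (isClosed_iInter fun i => isClosed_iInter fun _ =>
          isClosed_eq (continuous_apply i) continuous_const))
  · refine (Metric.isBounded_closedBall (x := (0 : Fin n → ℝ)) (r := 1)).subset ?_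
    rintro x ⟨h0, h1, -⟩
    rw [mem_closedBall_zero_iff, pi_norm_le_iff_of_nonneg zero_le_one]
    intro i
    rw [Real.norm_eq_abs, abs_of_nonneg (h0 i), ← h1]
    exact Finset.single_le_sum (fun j _ => h0 j) (Finset.mem_univ i)

open Classical in
theorem t_ACY : S_ACY := by
  intro n K _ hcon
  obtain ⟨p, ⟨F⟩⟩ := id_nullhomotopic (realization K)
  have key : ∀ (t : ℝ) (x : Fin n → ℝ) (ht : t ∈ Set.Icc (0 : ℝ) 1) (hx : x ∈ realization K),
      (if h : t ∈ Set.Icc (0 : ℝ) 1 ∧ x ∈ realization K then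
        (F (⟨t, h.1⟩, ⟨x, h.2⟩) : realization K).1 else 0) = (F (⟨t, ht⟩, ⟨x, hx⟩)).1 :=
    fun t x ht hx => dif_pos ⟨ht, hx⟩
  refine Pool.Agent.Helper965_Rud.AS.Homot.acyclic_of_contract (realization K)
    (isCompact_realization K) p.1
    (fun t x => if h : t ∈ Set.Icc (0 : ℝ) 1 ∧ x ∈ realization K then
      (F (⟨t, h.1⟩, ⟨x, h.2⟩) : realization K).1 else 0) ?_ ?_ ?_ ?_ p.2 3
  · rw [continuousOn_iff_continuous_domRestrict]
    have e : (Set.Icc (0 : ℝ) 1 ×ˢ realization K).domRestrict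
        (fun z : ℝ × (Fin n → ℝ) => if h : z.1 ∈ Set.Icc (0 : ℝ) 1 ∧ z.2 ∈ realization K then
          (F (⟨z.1, h.1⟩, ⟨z.2, h.2⟩) : realization K).1 else 0) =
        fun z => (F (⟨z.1.1, z.2.1⟩, ⟨z.1.2, z.2.2⟩) : realization K).1 := by
      funext z
      exact key z.1.1 z.1.2 z.2.1 z.2.2
    rw [e]
    fun_prop
  · intro t ht x hx
    rw [key t x ht hx]
    exact Subtype.property _
  · intro x hx
    rw [key 0 x ⟨le_rfl, zero_le_one⟩ hx]
    have := F.apply_zero (⟨x, hx⟩ : realization K)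
    exact congrArg Subtype.val this
  · intro x hx
    rw [key 1 x ⟨zero_le_one, le_rfl⟩ hx]
    have := F.apply_one (⟨x, hx⟩ : realization K)
    exact congrArg Subtype.val this

end Pool.Agent.L0h87.LC
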