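import Mathlib
import Pool.Agent.L0h44.LC.Stm2
import Pool.Agent.Y364.E3.Dim

set_option autoImplicit false

/-!
# Project LC (MP_07bfe7_gt), module BD2: points with Euclidean neighbourhoods (helper87)
-/

namespace Pool.Agent.L0h87.LC

open Finset Pool.Agent.H933R3 Topology Pool.Agent.L0h44.LC Pool.Agent.Y364.E3

abbrev E4 : Type := EuclideanSpace ℝ (Fin 4)

variable {n : ℕ} {K : Finset (Finset (Fin n))}

theorem homeo_of {m : ℕ} (vs : Fin m → Fin n) (U : Set (realization K)) (W : Set E4)
    (G : E4 → Fin m → ℝ) (hG : Continuous G) (P : (Fin m → ℝ) → E4) (hP : Continuous P)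
    (h1 : ∀ y ∈ W, ∃ h : pt vs (G y) ∈ realization K, (⟨pt vs (G y), h⟩ : realization K) ∈ U)
    (h2 : ∀ y ∈ W, P (fun k => pt vs (G y) (vs k)) = y)
    (h3 : ∀ x : realization K, x ∈ U → P (fun k => x.1 (vs k)) ∈ W ∧
      pt vs (G (P fun k => x.1 (vs k))) = x.1) : Nonempty (U ≃ₜ W) := by
  refine ⟨{ toFun := fun x => ⟨P (fun k => x.1.1 (vs k)), (h3 x.1 x.2).1⟩
            invFun := fun y => ⟨⟨pt vs (G y.1), (h1 y.1 y.2).choose⟩, (h1 y.1 y.2).choose_spec⟩
            left_inv := fun x => Subtype.ext (Subtype.ext (h3 x.1 x.2).2)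
            right_inv := fun y => Subtype.ext (h2 y.1 y.2)
            continuous_toFun := ?_
            continuous_invFun := ?_ }⟩
  · refine Continuous.subtype_mk (hP.comp ?_) _
    refine continuous_pi fun k => ?_
    exact (continuous_apply (vs k)).comp (continuous_subtype_val.comp continuous_subtype_val)
  · refine Continuous.subtype_mk (Continuous.subtype_mk ?_ _) _
    exact (pt_cont hG).comp continuous_subtype_val

theorem pt_eq {m : ℕ} {vs : Fin m → Fin n} (hv : Function.Injective vs) {x : Fin n → ℝ}
    (h : ∀ i, x i ≠ 0 → ∃ k, vs k = i) : pt vs (fun k => x (vs k)) = x := by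
  funext i
  by_cases hi : ∃ k, vs k = i
  · obtain ⟨k, rfl⟩ := hi
    rw [pt_apply hv]
  · have h1 : x i = 0 := by
      by_contra hn
      exact hi (h i hn)
    rw [h1]
    by_contra hn
    obtain ⟨k, hk, -⟩ := pt_supp (mem_supp.2 hn)
    exact hi ⟨k, hk⟩

theorem isOpen_pos (R : Finset (Fin n)) : IsOpen {x : realization K | ∀ i ∈ R, 0 < x.1 i} := by
  have e : {x : realization K | ∀ i ∈ R, 0 < x.1 i} = ⋂ i ∈ R, {x : realization K | 0 < x.1 i} := by
    ext x
    simp
  rw [e]
  refine isOpen_biInter_finset fun i _ => ?_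
  exact isOpen_lt continuous_const ((continuous_apply i).comp continuous_subtype_val)

theorem card_le (hp : ∀ F, IsFacet K F → F.card = 5) {σ : Finset (Fin n)}
    (hσ : σ ∈ K) : σ.card ≤ 5 := by
  obtain ⟨F, hF, hle⟩ := exists_facet hσ
  rw [← hp F hF]
  exact card_le_card hle

theorem cc (k : Fin 4) : Continuous fun y : E4 => y k := by fun_prop

theorem case5 (hK : IsCx K) (hp : ∀ F, IsFacet K F → F.card = 5) {R : Finset (Fin n)} (hR : R ∈ K)
    (h5 : R.card = 5) (q : realization K) (hq : ∀ i, i ∈ R ↔ q.1 i ≠ 0) : q ∉ TopBd (realization K) := by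
  intro hb
  apply hb
  set w := R.orderEmbOfFin h5 with hw
  have hwR : ∀ k, w k ∈ R := fun k => R.orderEmbOfFin_mem h5 k
  have hwr : ∀ i ∈ R, ∃ k, w k = i := by
    intro i hi
    have : i ∈ Set.range w := by rw [hw, Finset.range_orderEmbOfFin]; exact hi
    exact this
  have hinj : Function.Injective w := w.injective
  refine ⟨{x | ∀ i ∈ R, 0 < x.1 i}, isOpen_pos R, ?_,
    {y | 0 < y 0 ∧ 0 < y 1 ∧ 0 < y 2 ∧ 0 < y 3 ∧ y 0 + y 1 + y 2 + y 3 < 1}, ?_, ?_⟩
  · intro i hi
    exact lt_of_le_of_ne (q.2.1 i) (Ne.symm ((hq i).1 hi))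
  · exact (isOpen_lt continuous_const (cc 0)).inter ((isOpen_lt continuous_const (cc 1)).inter
      ((isOpen_lt continuous_const (cc 2)).inter ((isOpen_lt continuous_const (cc 3)).inter
        (isOpen_lt ((((cc 0).add (cc 1)).add (cc 2)).add (cc 3)) continuous_const))))
  · refine homeo_of (fun k => w k) _ _
      (fun y => ![y 0, y 1, y 2, y 3, 1 - y 0 - y 1 - y 2 - y 3]) ?_
      (fun v => !₂[v 0, v 1, v 2, v 3]) ?_ ?_ ?_ ?_
    · refine continuous_pi fun k => ?_
      fin_cases k <;> simp <;> fun_prop
    · refine (PiLp.continuous_toLp 2 _).comp (continuous_pi fun k => ?_)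
      fin_cases k <;> simp <;> fun_prop
    · rintro y ⟨h0, h1, h2, h3, h4⟩
      have hpos : ∀ k : Fin 5, 0 < (![y 0, y 1, y 2, y 3, 1 - y 0 - y 1 - y 2 - y 3] : Fin 5 → ℝ) k := by
        intro k
        fin_cases k <;> simp <;> linarith
      refine ⟨mem_real hR (pt_nonneg fun k => (hpos k).le) ?_ ?_, ?_⟩
      · rw [pt_sum]
        simp [Fin.sum_univ_succ]
      · intro i hi
        obtain ⟨k, rfl, -⟩ := pt_supp hi
        exact hwR k
      · intro i hi
        obtain ⟨k, rfl⟩ := hwr i hi
        show 0 < pt (fun k => w k) _ (w k)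
        rw [show pt (fun k => w k) (![y 0, y 1, y 2, y 3, 1 - y 0 - y 1 - y 2 - y 3] : Fin 5 → ℝ) (w k) = _
          from pt_apply hinj k]
        exact hpos k
    · intro y hy
      have hk : ∀ k, pt (fun k => w k) (![y 0, y 1, y 2, y 3, 1 - y 0 - y 1 - y 2 - y 3] : Fin 5 → ℝ)
        (w k) = (![y 0, y 1, y 2, y 3, 1 - y 0 - y 1 - y 2 - y 3] : Fin 5 → ℝ) k :=
        fun k => pt_apply hinj k
      ext j
      fin_cases j <;> simp [hk]
    · intro x hx
      have hsub : R ⊆ supp x.1 := fun i hi => mem_supp.2 (hx i hi).ne'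
      have hs : R = supp x.1 := eq_of_subset_of_card_le hsub (by
        rw [h5]
        exact card_le hp (supp_mem hK x.2))
      have hrange : ∀ i, x.1 i ≠ 0 → ∃ k, (fun k => w k) k = i := by
        intro i hi
        apply hwr
        rw [hs]
        exact mem_supp.2 hi
      have he := pt_eq hinj hrange
      have hsum : ∑ k, x.1 (w k) = 1 := by
        rw [← x.2.2.1]
        conv_rhs => rw [← he]
        rw [pt_sum]
      rw [Fin.sum_univ_five] at hsum
      have hpos : ∀ k, 0 < x.1 (w k) := fun k => hx _ (hwR k)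
      refine ⟨⟨?_, ?_, ?_, ?_, ?_⟩, ?_⟩
      · simpa using hpos 0
      · simpa using hpos 1
      · simpa using hpos 2
      · simpa using hpos 3
      · have := hpos 4
        simp
        linarith
      · conv_rhs => rw [← he]
        congr 1
        funext k
        fin_cases k <;> simp
        linarith

theorem exists_insert' {R X : Finset (Fin n)} (hR : R.card = 4) (hX : X.card = 5) (h : R ⊆ X) :
    ∃ p ∉ R, X = insert p R := by
  have h1 : (X \ R).card = 1 := by rw [card_sdiff_of_subset h]; omega
  obtain ⟨p, hp⟩ := card_eq_one.1 h1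
  have hp1 : p ∈ X \ R := by rw [hp]; simp
  rw [Finset.mem_sdiff] at hp1
  refine ⟨p, hp1.2, ?_⟩
  rw [← sdiff_union_of_subset h, hp]
  rfl

theorem case4 (hK : IsCx K) (hp : ∀ F, IsFacet K F → F.card = 5) {R : Finset (Fin n)}
    (h4 : R.card = 4) {a b : Fin n} (ha : a ∉ R) (hb : b ∉ R) (hab : a ≠ b) (hA : insert a R ∈ K)
    (hB : insert b R ∈ K) (hall : ∀ F ∈ K, F.card = 5 → R ⊆ F → F = insert a R ∨ F = insert b R)
    (q : realization K) (hq : ∀ i, i ∈ R ↔ q.1 i ≠ 0) : q ∉ TopBd (realization K) := by
  intro hbd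
  apply hbd
  set w := R.orderEmbOfFin h4 with hw
  have hwR : ∀ k, w k ∈ R := fun k => R.orderEmbOfFin_mem h4 k
  have hwr : ∀ i ∈ R, ∃ k, w k = i := by
    intro i hi
    have : i ∈ Set.range w := by rw [hw, Finset.range_orderEmbOfFin]; exact hi
    exact this
  have hinj : Function.Injective w := w.injective
  set vs : Fin 6 → Fin n := ![a, b, w 0, w 1, w 2, w 3] with hvs
  have hv : Function.Injective vs := by
    have e0 : ∀ k, w k ≠ a := fun k h => ha (h ▸ hwR k)
    have e1 : ∀ k, w k ≠ b := fun k h => hb (h ▸ hwR k)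
    intro j k hjk
    fin_cases j <;> fin_cases k <;> simp [hvs, hab, hab.symm, e0, e1, (e0 _).symm, (e1 _).symm, hinj.eq_iff] at hjk ⊢
  have hvR : ∀ k : Fin 4, vs ⟨k.1 + 2, by omega⟩ = w k := by
    intro k
    fin_cases k <;> rfl
  set G : E4 → Fin 6 → ℝ := fun y =>
    ![max (y 3) 0, max (-(y 3)) 0, y 0, y 1, y 2, 1 - y 0 - y 1 - y 2 - |y 3|] with hG
  set P : (Fin 6 → ℝ) → E4 := fun v => !₂[v 2, v 3, v 4, v 0 - v 1] with hP
  refine ⟨{x | ∀ i ∈ R, 0 < x.1 i}, isOpen_pos R, ?_,
    {y | 0 < y 0 ∧ 0 < y 1 ∧ 0 < y 2 ∧ y 0 + y 1 + y 2 + |y 3| < 1}, ?_, ?_⟩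
  · intro i hi
    exact lt_of_le_of_ne (q.2.1 i) (Ne.symm ((hq i).1 hi))
  · exact (isOpen_lt continuous_const (cc 0)).inter ((isOpen_lt continuous_const (cc 1)).inter
      ((isOpen_lt continuous_const (cc 2)).inter
        (isOpen_lt ((((cc 0).add (cc 1)).add (cc 2)).add (cc 3).abs) continuous_const)))
  · refine homeo_of vs _ _ G ?_ P ?_ ?_ ?_ ?_
    · refine continuous_pi fun k => ?_
      fin_cases k <;> simp [hG] <;> fun_prop
    · refine (PiLp.continuous_toLp 2 _).comp (continuous_pi fun k => ?_)
      fin_cases k <;> simp <;> fun_prop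
    · rintro y ⟨h0, h1, h2, h3⟩
      have hnn : ∀ k : Fin 6, 0 ≤ G y k := by
        intro k
        fin_cases k <;> simp [hG] <;> linarith
      have hpos : ∀ k : Fin 4, 0 < G y ⟨k.1 + 2, by omega⟩ := by
        intro k
        fin_cases k <;> simp [hG] <;> linarith
      refine ⟨?_, ?_⟩
      · have hsum : ∑ i, pt vs (G y) i = 1 := by
          rw [pt_sum]
          have e : max (y 3) 0 + max (-(y 3)) 0 = |y 3| := by
            rcases le_total 0 (y 3) with h | h
            · rw [max_eq_left h, max_eq_right (by linarith), abs_of_nonneg h, add_zero]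
            · rw [max_eq_right h, max_eq_left (by linarith), abs_of_nonpos h, zero_add]
          simp only [hG, Fin.sum_univ_six]
          simp
          linarith
        have hsup : ∀ i ∈ supp (pt vs (G y)), (i = a ∧ 0 < y 3) ∨ (i = b ∧ y 3 < 0) ∨ i ∈ R := by
          intro i hi
          obtain ⟨k, rfl, hk⟩ := pt_supp hi
          fin_cases k
          · left
            refine ⟨rfl, ?_⟩
            by_contra hn
            exact hk (by simp [hG]; linarith)
          · right; left
            refine ⟨rfl, ?_⟩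
            by_contra hn
            exact hk (by simp [hG]; linarith)
          · right; right; exact hwR 0
          · right; right; exact hwR 1
          · right; right; exact hwR 2
          · right; right; exact hwR 3
        rcases le_total 0 (y 3) with h | h
        · refine mem_real hA (pt_nonneg hnn) hsum fun i hi => ?_
          rcases hsup i hi with h' | h' | h'
          · rw [h'.1]; exact mem_insert_self _ _
          · exact absurd h'.2 (not_lt.2 h)
          · exact mem_insert_of_mem h'
        · refine mem_real hB (pt_nonneg hnn) hsum fun i hi => ?_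
          rcases hsup i hi with h' | h' | h'
          · exact absurd h'.2 (not_lt.2 h)
          · rw [h'.1]; exact mem_insert_self _ _
          · exact mem_insert_of_mem h'
      · intro i hi
        obtain ⟨k, rfl⟩ := hwr i hi
        show 0 < pt vs _ (w k)
        rw [← hvR k, pt_apply hv]
        exact hpos k
    · intro y hy
      have hk : (fun k => pt vs (G y) (vs k)) = G y := by
        funext k
        exact pt_apply hv k
      rw [hk]
      ext j
      fin_cases j
      · simp [hP, hG]
      · simp [hP, hG]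
      · simp [hP, hG]
      · simp only [hP, hG]
        rcases le_total 0 (y 3) with h | h
        · simp [h]
        · simp [h]
    · intro x hx
      have hsub : R ⊆ supp x.1 := fun i hi => mem_supp.2 (hx i hi).ne'
      have hs : supp x.1 ⊆ insert a R ∨ supp x.1 ⊆ insert b R := by
        have h5 := card_le hp (supp_mem hK x.2)
        have h4' := card_le_card hsub
        rw [h4] at h4'
        rcases (by omega : (supp x.1).card = 4 ∨ (supp x.1).card = 5) with h | h
        · left
          rw [← eq_of_subset_of_card_le hsub (by omega)]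
          exact subset_insert _ _
        · rcases hall _ (supp_mem hK x.2) h hsub with h' | h'
          · left; rw [h']
          · right; rw [h']
      have hrange : ∀ i, x.1 i ≠ 0 → ∃ k, vs k = i := by
        intro i hi
        have hi' := mem_supp.2 hi
        have : i = a ∨ i = b ∨ i ∈ R := by
          rcases hs with hs | hs
          · rcases mem_insert.1 (hs hi') with h | h
            · exact Or.inl h
            · exact Or.inr (Or.inr h)
          · rcases mem_insert.1 (hs hi') with h | h
            · exact Or.inr (Or.inl h)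
            · exact Or.inr (Or.inr h)
        rcases this with h | h | h
        · exact ⟨0, h.symm⟩
        · exact ⟨1, h.symm⟩
        · obtain ⟨k, hk⟩ := hwr i h
          exact ⟨⟨k.1 + 2, by omega⟩, by rw [hvR k, hk]⟩
      have he := pt_eq hv hrange
      have hz : x.1 a = 0 ∨ x.1 b = 0 := by
        rcases hs with hs | hs
        · right
          by_contra hn
          rcases mem_insert.1 (hs (mem_supp.2 hn)) with h | h
          · exact hab h.symm
          · exact hb h
        · left
          by_contra hn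
          rcases mem_insert.1 (hs (mem_supp.2 hn)) with h | h
          · exact hab h
          · exact ha h
      have ha0 : 0 ≤ x.1 a := x.2.1 a
      have hb0 : 0 ≤ x.1 b := x.2.1 b
      have hsum : ∑ k, x.1 (vs k) = 1 := by
        rw [← x.2.2.1]
        conv_rhs => rw [← he]
        rw [pt_sum]
      simp only [hvs, Fin.sum_univ_six] at hsum
      simp at hsum
      have hpos : ∀ k, 0 < x.1 (w k) := fun k => hx _ (hwR k)
      have p0 := hpos 0
      have p1 := hpos 1
      have p2 := hpos 2
      have p3 := hpos 3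
      have habs : |x.1 a - x.1 b| = x.1 a + x.1 b := by
        rcases hz with h | h
        · rw [h]; simp [abs_of_nonneg hb0]
        · rw [h]; simp [abs_of_nonneg ha0]
      have m1 : max (x.1 a - x.1 b) 0 = x.1 a := by
        rcases hz with h | h
        · rw [h]; simp [hb0]
        · rw [h]; simp [ha0]
      have m2 : max (-(x.1 a - x.1 b)) 0 = x.1 b := by
        rcases hz with h | h
        · rw [h]; simp [hb0]
        · rw [h]; simp [ha0]
      refine ⟨⟨?_, ?_, ?_, ?_⟩, ?_⟩
      · simpa [hP, hvs] using p0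
      · simpa [hP, hvs] using p1
      · simpa [hP, hvs] using p2
      · simp [hP, hvs, habs]
        linarith
      · conv_rhs => rw [← he]
        congr 1
        funext k
        fin_cases k
        · simpa [hP, hvs, hG] using m1
        · simpa [hP, hvs, hG] using m2
        · simp [hP, hvs, hG]
        · simp [hP, hvs, hG]
        · simp [hP, hvs, hG]
        · simp [hP, hvs, hG, habs]
          linarith

theorem t_BD2 : S_BD2 := by
  intro n K hK hp R hR hcard q hq
  rcases hcard with h5 | ⟨h4, h2⟩
  · exact case5 hK hp hR h5 q hq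
  · obtain ⟨X, Y, hXY, hf⟩ := Finset.card_eq_two.1 h2
    have hX : X ∈ K.filter (fun F => F.card = 5 ∧ R ⊆ F) := by rw [hf]; simp
    have hY : Y ∈ K.filter (fun F => F.card = 5 ∧ R ⊆ F) := by rw [hf]; simp
    rw [mem_filter] at hX hY
    obtain ⟨a, ha, hXa⟩ := exists_insert' h4 hX.2.1 hX.2.2
    obtain ⟨b, hb, hYb⟩ := exists_insert' h4 hY.2.1 hY.2.2
    refine case4 hK hp h4 ha hb ?_ (hXa ▸ hX.1) (hYb ▸ hY.1) ?_ q hq
    · intro h
      apply hXY
      rw [hXa, hYb, h]
    · intro F hF hF5 hRF
      have : F ∈ K.filter (fun F => F.card = 5 ∧ R ⊆ F) := mem_filter.2 ⟨hF, hF5, hRF⟩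
      rw [hf, mem_insert, mem_singleton] at this
      rcases this with h | h
      · left; rw [h, hXa]
      · right; rw [h, hYb]

end Pool.Agent.L0h87.LC
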